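import Pool.Agent.Helper993.TwoN.Num.Chk

set_option autoImplicit false

namespace Pool.Agent.Helper993.TwoN

theorem lpP_0 : lpAll 0 9 true = true := by decide +kernel

theorem lpM_0 : lpAll 0 9 false = true := by decide +kernel

theorem lpP_1 : lpAll 9 9 true = true := by decide +kernel

theorem lpM_1 : lpAll 9 9 false = true := by decide +kernel

end Pool.Agent.Helper993.TwoN
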