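import Pool.Agent.Helper993.TwoN.Num.Chk

set_option autoImplicit false

namespace Pool.Agent.Helper993.TwoN

theorem lpP_6 : lpAll 54 9 true = true := by decide +kernel

theorem lpM_6 : lpAll 54 9 false = true := by decide +kernel

theorem lpP_7 : lpAll 63 6 true = true := by decide +kernel

theorem lpM_7 : lpAll 63 6 false = true := by decide +kernel

end Pool.Agent.Helper993.TwoN
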